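import Pool.Agent.Y609.WS.Fin2

/-! Weakly sequentially supercyclic operators which are not weakly 1-sequentially supercyclic:
`T ⊕ 1` on `ℓ_p ⊕ 𝕜`, where `T` is weakly sequentially hypercyclic and not weakly 1-sequentially
hypercyclic. -/

set_option autoImplicit false

open Filter Topology
open scoped ENNReal

namespace Pool.Agent.Results.MP_e616d8_an.SupercyclicGap

variable (𝕜 : Type) [RCLike 𝕜] {X : Type} [NormedAddCommGroup X] [NormedSpace 𝕜 X]

/-- The sequence `u` converges weakly to `y`. -/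
def WeaklyTendsto (u : ℕ → X) (y : X) : Prop :=
  ∀ φ : X →L[𝕜] 𝕜, Tendsto (fun k => φ (u k)) atTop (𝓝 (φ y))

/-- `M` is sequentially closed in the weak topology: it contains the weak limit of every weakly
convergent sequence of its elements. -/
def IsWeaklySeqClosed (M : Set X) : Prop :=
  ∀ (u : ℕ → X) (y : X), (∀ k, u k ∈ M) → WeaklyTendsto 𝕜 u y → y ∈ M

/-- The sequential closure of `A` in the weak topology: the intersection of all weakly sequentially
closed sets containing `A`. -/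
def seqClosure (A : Set X) : Set X :=
  {y | ∀ M : Set X, IsWeaklySeqClosed 𝕜 M → A ⊆ M → y ∈ M}

/-- The projective orbit of `x` under `T`: all vectors `c • T ^ n x`. -/
def projOrbit (T : X →L[𝕜] X) (x : X) : Set X := {v | ∃ (n : ℕ) (c : 𝕜), v = c • (T ^ n) x}

/-- `T` is weakly sequentially supercyclic: some projective orbit is sequentially dense in the weak
topology. -/
def IsWeaklySequentiallySupercyclic (T : X →L[𝕜] X) : Prop :=
  ∃ x : X, seqClosure 𝕜 (projOrbit 𝕜 T x) = Set.univ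

/-- `T` is weakly 1-sequentially supercyclic: there is `x` such that every `y` is the weak limit of
some sequence of elements of the projective orbit of `x`. -/
def IsWeaklyOneSequentiallySupercyclic (T : X →L[𝕜] X) : Prop :=
  ∃ x : X, ∀ y : X, ∃ u : ℕ → X, (∀ k, u k ∈ projOrbit 𝕜 T x) ∧ WeaklyTendsto 𝕜 u y

theorem lp_separable (𝕜 : Type) [RCLike 𝕜] (p : ℝ≥0∞) [Fact (1 ≤ p)] (hp : p ≠ ∞) :
    TopologicalSpace.SeparableSpace (lp (fun _ : ℕ => 𝕜) p) := by
  rw [← TopologicalSpace.isSeparable_univ_iff]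
  have h1 : TopologicalSpace.IsSeparable
      (⋃ i : ℕ, Set.range (lp.singleContinuousLinearMap 𝕜 (fun _ : ℕ => 𝕜) p i)) := by
    apply TopologicalSpace.IsSeparable.iUnion
    intro i
    exact TopologicalSpace.isSeparable_range
      (lp.singleContinuousLinearMap 𝕜 (fun _ : ℕ => 𝕜) p i).continuous
  have h2 := (h1.span (R := 𝕜)).closure
  refine h2.mono (fun f _ => ?_)
  refine mem_closure_of_tendsto (lp.hasSum_single hp f) (Eventually.of_forall (fun s => ?_))
  apply Submodule.sum_mem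
  intro i _
  apply Submodule.subset_span
  exact Set.mem_iUnion.2 ⟨i, ⟨f i, rfl⟩⟩

/-- The operator `T ⊕ 1` on `X × 𝕜`. -/
noncomputable def ext (T : X →L[𝕜] X) : (X × 𝕜) →L[𝕜] (X × 𝕜) :=
  T.prodMap (ContinuousLinearMap.id 𝕜 𝕜)

theorem ext_pow (T : X →L[𝕜] X) (n : ℕ) (v : X × 𝕜) :
    ((ext 𝕜 T) ^ n) v = ((T ^ n) v.1, v.2) := by
  induction n with
  | zero => rfl
  | succ n ih =>
    rw [pow_succ', pow_succ']
    show ext 𝕜 T (((ext 𝕜 T) ^ n) v) = _
    rw [ih]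
    rfl

theorem weak_of_norm {u : ℕ → X} {y : X} (h : Tendsto u atTop (𝓝 y)) : WeaklyTendsto 𝕜 u y :=
  fun φ => (φ.continuous.tendsto _).comp h

theorem super (T : X →L[𝕜] X)
    (h : ∃ x : X, Dense {w : X | ∃ n : ℕ → ℕ,
      ∀ φ : X →L[𝕜] 𝕜, Tendsto (fun k => φ ((T ^ n k) x)) atTop (𝓝 (φ w))}) :
    IsWeaklySequentiallySupercyclic 𝕜 (ext 𝕜 T) := by
  obtain ⟨x, hx⟩ := h
  refine ⟨(x, 1), Set.eq_univ_of_forall fun y M hM hA => ?_⟩
  -- all vectors of the form `(c • w, c)`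
  have key : ∀ (c : 𝕜) (w : X), (c • w, c) ∈ M := by
    intro c
    -- the embedding `w ↦ (c • w, c)` preserves weak limits
    have emb : ∀ (u : ℕ → X) (w : X), (∀ φ : X →L[𝕜] 𝕜,
        Tendsto (fun k => φ (u k)) atTop (𝓝 (φ w))) →
        WeaklyTendsto 𝕜 (fun k => ((c • u k, c) : X × 𝕜)) (c • w, c) := by
      intro u w hu φ
      have e : ∀ v : X, φ (c • v, c) = c • (φ.comp (ContinuousLinearMap.inl 𝕜 X 𝕜)) v
          + φ (0, c) := by
        intro v
        have : ((c • v, c) : X × 𝕜) = c • ((v, 0) : X × 𝕜) + (0, c) := by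
          ext <;> simp
        rw [this, map_add, map_smul]
        rfl
      rw [e w]
      have e' : (fun k => φ ((c • u k, c) : X × 𝕜)) = fun k =>
          c • (φ.comp (ContinuousLinearMap.inl 𝕜 X 𝕜)) (u k) + φ (0, c) := by
        funext k
        exact e (u k)
      rw [e']
      exact ((hu _).const_smul c).add_const _
    have h1 : ∀ w ∈ {w : X | ∃ n : ℕ → ℕ,
        ∀ φ : X →L[𝕜] 𝕜, Tendsto (fun k => φ ((T ^ n k) x)) atTop (𝓝 (φ w))},
        (c • w, c) ∈ M := by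
      rintro w ⟨n, hn⟩
      refine hM _ _ (fun k => ?_) (emb (fun k => (T ^ n k) x) w hn)
      refine hA ⟨n k, c, ?_⟩
      rw [ext_pow]
      ext <;> simp
    intro w
    obtain ⟨v, hv, hvw⟩ := mem_closure_iff_seq_limit.1 (hx w)
    exact hM _ _ (fun k => h1 (v k) (hv k))
      (emb v w fun φ => (φ.continuous.tendsto _).comp hvw)
  have key2 : ∀ (c : 𝕜) (w : X), c ≠ 0 → (w, c) ∈ M := by
    intro c w hc
    have := key c (c⁻¹ • w)
    rwa [smul_smul, mul_inv_cancel₀ hc, one_smul] at this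
  obtain ⟨w, c⟩ := y
  by_cases hc : c = 0
  · subst hc
    refine hM (fun k : ℕ => ((w, ((1 / ((k : ℝ) + 1) : ℝ) : 𝕜)) : X × 𝕜)) _ (fun k => ?_)
      (weak_of_norm 𝕜 ?_)
    · apply key2
      have : (1 / ((k : ℝ) + 1) : ℝ) ≠ 0 := by positivity
      exact_mod_cast this
    · rw [Prod.tendsto_iff]
      refine ⟨tendsto_const_nhds, ?_⟩
      show Tendsto (fun k : ℕ => ((1 / ((k : ℝ) + 1) : ℝ) : 𝕜)) atTop (𝓝 (0 : 𝕜))
      have h1 : Tendsto (fun k : ℕ => (1 / ((k : ℝ) + 1) : ℝ)) atTop (𝓝 0) :=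
        tendsto_one_div_add_atTop_nhds_zero_nat
      have h2 := ((RCLike.continuous_ofReal (K := 𝕜)).tendsto (0 : ℝ)).comp h1
      rw [RCLike.ofReal_zero] at h2
      exact h2
  · exact key2 c w hc

theorem not_one (T : X →L[𝕜] X)
    (h : ∀ x, ¬ ∀ y : X, ∃ n : ℕ → ℕ, ∀ φ : X →L[𝕜] 𝕜,
        Tendsto (fun k => φ ((T ^ n k) x)) atTop (𝓝 (φ y))) :
    ¬ IsWeaklyOneSequentiallySupercyclic 𝕜 (ext 𝕜 T) := by
  rintro ⟨⟨x, c⟩, hx⟩
  by_cases hc : c = 0
  · obtain ⟨u, hu, hlim⟩ := hx (0, 1)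
    have h1 := hlim (ContinuousLinearMap.snd 𝕜 X 𝕜)
    have h2 : (fun k => (ContinuousLinearMap.snd 𝕜 X 𝕜) (u k)) = fun _ => (0 : 𝕜) := by
      funext k
      obtain ⟨n, d, hd⟩ := hu k
      rw [hd, ext_pow, hc]
      simp
    rw [h2] at h1
    exact one_ne_zero (tendsto_nhds_unique h1 tendsto_const_nhds)
  · apply h (c⁻¹ • x)
    intro y
    obtain ⟨u, hu, hlim⟩ := hx (y, 1)
    choose n d hd using hu
    refine ⟨n, fun φ => ?_⟩
    have hd' : ∀ k, u k = (d k • (T ^ n k) x, d k * c) := by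
      intro k
      rw [hd k, ext_pow]
      ext <;> simp
    have h1 : Tendsto (fun k => d k * c) atTop (𝓝 (1 : 𝕜)) := by
      have := hlim (ContinuousLinearMap.snd 𝕜 X 𝕜)
      have e : (fun k => (ContinuousLinearMap.snd 𝕜 X 𝕜) (u k)) = fun k => d k * c := by
        funext k
        rw [hd' k]
        rfl
      rw [e] at this
      exact this
    have h2 : Tendsto (fun k => d k * φ ((T ^ n k) x)) atTop (𝓝 (φ y)) := by
      have := hlim (φ.comp (ContinuousLinearMap.fst 𝕜 X 𝕜))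
      have e : (fun k => (φ.comp (ContinuousLinearMap.fst 𝕜 X 𝕜)) (u k)) =
          fun k => d k * φ ((T ^ n k) x) := by
        funext k
        rw [hd' k]
        show φ (d k • (T ^ n k) x) = _
        rw [map_smul, smul_eq_mul]
      rw [e] at this
      exact this
    have h3 := (h1.inv₀ one_ne_zero).mul h2
    rw [inv_one, one_mul] at h3
    have h4 : ∀ᶠ k in atTop, d k * c ≠ 0 := h1.eventually_ne one_ne_zero
    refine h3.congr' ?_
    filter_upwards [h4] with k hk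
    have hdk : d k ≠ 0 := left_ne_zero_of_mul hk
    rw [map_smul, map_smul, smul_eq_mul]
    field_simp

section Transport

variable {Y : Type} [NormedAddCommGroup Y] [NormedSpace 𝕜 Y]

/-- The operator `e⁻¹ T e`. -/
noncomputable def conj (e : X ≃L[𝕜] Y) (T : Y →L[𝕜] Y) : X →L[𝕜] X :=
  ((e.symm : Y →L[𝕜] X).comp T).comp (e : X →L[𝕜] Y)

theorem conj_pow (e : X ≃L[𝕜] Y) (T : Y →L[𝕜] Y) (n : ℕ) (v : X) :
    ((conj 𝕜 e T) ^ n) v = e.symm ((T ^ n) (e v)) := by
  induction n with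
  | zero => simp
  | succ n ih =>
    rw [pow_succ', pow_succ']
    show conj 𝕜 e T (((conj 𝕜 e T) ^ n) v) = e.symm (T ((T ^ n) (e v)))
    rw [ih, conj]
    simp

theorem weak_map (A : X →L[𝕜] Y) {u : ℕ → X} {y : X} (h : WeaklyTendsto 𝕜 u y) :
    WeaklyTendsto 𝕜 (fun k => A (u k)) (A y) := fun φ => h (φ.comp A)

theorem transport_super (e : X ≃L[𝕜] Y) (T : Y →L[𝕜] Y)
    (h : IsWeaklySequentiallySupercyclic 𝕜 T) :
    IsWeaklySequentiallySupercyclic 𝕜 (conj 𝕜 e T) := by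
  obtain ⟨y, hy⟩ := h
  refine ⟨e.symm y, Set.eq_univ_of_forall fun z M hM hA => ?_⟩
  have h1 : e z ∈ seqClosure 𝕜 (projOrbit 𝕜 T y) := by rw [hy]; trivial
  have h2 := h1 {w | e.symm w ∈ M} (fun u w hu hw => hM _ _ hu (weak_map 𝕜 (e.symm : Y →L[𝕜] X) hw))
    (by
      rintro _ ⟨n, c, rfl⟩
      refine hA ⟨n, c, ?_⟩
      rw [conj_pow]
      simp)
  simpa using h2

theorem transport_one (e : X ≃L[𝕜] Y) (T : Y →L[𝕜] Y)
    (h : IsWeaklyOneSequentiallySupercyclic 𝕜 (conj 𝕜 e T)) :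
    IsWeaklyOneSequentiallySupercyclic 𝕜 T := by
  obtain ⟨x, hx⟩ := h
  refine ⟨e x, fun y => ?_⟩
  obtain ⟨u, hu, hlim⟩ := hx (e.symm y)
  refine ⟨fun k => e (u k), fun k => ?_, ?_⟩
  · obtain ⟨n, c, hc⟩ := hu k
    refine ⟨n, c, ?_⟩
    show e (u k) = _
    rw [hc, conj_pow]
    simp
  · have := weak_map 𝕜 (e : X →L[𝕜] Y) hlim
    simpa using this

end Transport

/-- For real and for complex scalars there is a bounded linear operator on a Hilbert space which is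
weakly sequentially supercyclic but not weakly 1-sequentially supercyclic. -/
theorem result (𝕜 : Type) [RCLike 𝕜] :
    ∃ (H : Type) (_ : NormedAddCommGroup H) (_ : InnerProductSpace 𝕜 H),
      CompleteSpace H ∧ TopologicalSpace.SeparableSpace H ∧ ∃ T : H →L[𝕜] H,
        IsWeaklySequentiallySupercyclic 𝕜 T ∧ ¬ IsWeaklyOneSequentiallySupercyclic 𝕜 T := by
  haveI := lp_separable 𝕜 2 (by simp)
  have hc : Pool.Agent.Y609.WS.Compl 𝕜 (lp (fun _ : ℕ => 𝕜) 2) (lp (fun _ : ℕ => 𝕜) 2) :=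
    ⟨ContinuousLinearMap.id 𝕜 _, ContinuousLinearMap.id 𝕜 _, fun _ => rfl⟩
  obtain ⟨T, hT, hn⟩ := Pool.Agent.Y609.WS.found2_lp (by norm_num) (by simp) hc
  let e : WithLp 2 (lp (fun _ : ℕ => 𝕜) 2 × 𝕜) ≃L[𝕜] (lp (fun _ : ℕ => 𝕜) 2 × 𝕜) :=
    WithLp.prodContinuousLinearEquiv 2 𝕜 _ _
  refine ⟨WithLp 2 (lp (fun _ : ℕ => 𝕜) 2 × 𝕜), inferInstance, inferInstance, inferInstance,
    ?_, conj 𝕜 e (ext 𝕜 T), transport_super 𝕜 e _ (super 𝕜 T hT),
    fun h => not_one 𝕜 T hn (transport_one 𝕜 e _ h)⟩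
  exact e.symm.toHomeomorph.surjective.denseRange.separableSpace e.symm.toHomeomorph.continuous

end Pool.Agent.Results.MP_e616d8_an.SupercyclicGap
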